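import Mathlib

namespace Pool.Agent.Results.MP_79ed51_nt.ThreeSolutions

/-- Modulo a prime `p`, the descending product `(p-1)(p-2)...(p-n)` is `(-1)^n n!`. -/
theorem descFactorial_cast (p : ℕ) (n : ℕ) (hn : n < p) :
    (((p - 1).descFactorial n : ℕ) : ZMod p) = (-1) ^ n * (n.factorial : ZMod p) := by
  induction n with
  | zero => simp
  | succ k ih =>
    have hk : k < p := by omega
    rw [Nat.descFactorial_succ, Nat.cast_mul, ih hk, Nat.factorial_succ, Nat.cast_mul]
    have h1 : ((p - 1 - k : ℕ) : ZMod p) = -((k + 1 : ℕ) : ZMod p) := by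
      have h2 : (p - 1 - k) + (k + 1) = p := by omega
      have h3 : (((p - 1 - k) + (k + 1) : ℕ) : ZMod p) = 0 := by
        rw [h2]; exact ZMod.natCast_self p
      rw [Nat.cast_add] at h3
      exact eq_neg_of_add_eq_zero_left h3
    rw [h1, pow_succ]
    ring

/-- Symmetry of the solutions with odd `n`: if `p ∣ n! + 1` with `n` odd then
`p ∣ (p - 1 - n)! + 1`. -/
theorem reflect (p : ℕ) [hp : Fact p.Prime] (n : ℕ) (hn : n < p) (hodd : Odd n)
    (h : p ∣ n.factorial + 1) : p ∣ (p - 1 - n).factorial + 1 := by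
  have h1 : ((n.factorial : ℕ) : ZMod p) = -1 := by
    have h2 : ((n.factorial + 1 : ℕ) : ZMod p) = 0 :=
      (ZMod.natCast_eq_zero_iff _ _).mpr h
    push_cast at h2
    exact eq_neg_of_add_eq_zero_left h2
  have h3 : (p - 1 - n).factorial * (p - 1).descFactorial n = (p - 1).factorial :=
    Nat.factorial_mul_descFactorial (by omega)
  have h4 : (((p - 1 - n).factorial * (p - 1).descFactorial n : ℕ) : ZMod p) = -1 := by
    rw [h3]; exact ZMod.wilsons_lemma p
  rw [Nat.cast_mul, descFactorial_cast p n hn, h1, hodd.neg_one_pow] at h4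
  have h5 : (((p - 1 - n).factorial + 1 : ℕ) : ZMod p) = 0 := by
    push_cast
    have : ((p - 1 - n).factorial : ZMod p) = -1 := by
      calc ((p - 1 - n).factorial : ZMod p)
          = ((p - 1 - n).factorial : ZMod p) * (-1 * -1) := by ring
        _ = -1 := h4
    rw [this]; ring
  exact (ZMod.natCast_eq_zero_iff _ _).mp h5

/-- There are infinitely many primes `p` for which `p ∣ n! + 1` holds for at least three integers
`n` with `1 ≤ n ≤ p - 1`. -/
theorem result :
    {p : ℕ | p.Prime ∧
      3 ≤ ((Finset.Icc 1 (p - 1)).filter (fun n => p ∣ n.factorial + 1)).card}.Infinite := by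
  rw [Set.infinite_iff_exists_gt]
  intro N
  set n : ℕ := 6 * N + 7 with hn
  set p : ℕ := (n.factorial + 1).minFac with hpdef
  have hfac : 1 ≤ n.factorial := Nat.factorial_pos n
  have hp : p.Prime := Nat.minFac_prime (by omega)
  have hdvd : p ∣ n.factorial + 1 := Nat.minFac_dvd _
  have hlt : n < p := by
    by_contra hcon
    have h1 : p ∣ n.factorial := (hp.dvd_factorial).mpr (by omega)
    have h2 : p ∣ 1 := (Nat.dvd_add_right h1).mp hdvd
    exact hp.one_lt.ne' (Nat.dvd_one.mp h2)
  have hne1 : p ≠ n + 1 := by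
    intro h
    have h2 : 2 ∣ p := ⟨3 * N + 4, by omega⟩
    have := (Nat.prime_dvd_prime_iff_eq Nat.prime_two hp).mp h2
    omega
  have hne2 : p ≠ 2 * n + 1 := by
    intro h
    have h2 : 3 ∣ p := ⟨4 * N + 5, by omega⟩
    have := (Nat.prime_dvd_prime_iff_eq Nat.prime_three hp).mp h2
    omega
  have : Fact p.Prime := ⟨hp⟩
  have hodd : Odd n := ⟨3 * N + 3, by omega⟩
  have hrefl : p ∣ (p - 1 - n).factorial + 1 := reflect p n hlt hodd hdvd
  have hwil : p ∣ (p - 1).factorial + 1 := by
    apply (ZMod.natCast_eq_zero_iff _ _).mp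
    push_cast
    rw [ZMod.wilsons_lemma p]
    ring
  refine ⟨p, ⟨hp, ?_⟩, by omega⟩
  have hsub : ({n, p - 1 - n, p - 1} : Finset ℕ) ⊆
      (Finset.Icc 1 (p - 1)).filter (fun n => p ∣ n.factorial + 1) := by
    intro m hm
    simp only [Finset.mem_insert, Finset.mem_singleton] at hm
    rw [Finset.mem_filter, Finset.mem_Icc]
    rcases hm with rfl | rfl | rfl
    · exact ⟨⟨by omega, by omega⟩, hdvd⟩
    · exact ⟨⟨by omega, by omega⟩, hrefl⟩
    · exact ⟨⟨by omega, by omega⟩, hwil⟩
  have hcard : ({n, p - 1 - n, p - 1} : Finset ℕ).card = 3 := by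
    rw [Finset.card_insert_of_notMem, Finset.card_insert_of_notMem, Finset.card_singleton]
    · simp only [Finset.mem_singleton]; omega
    · simp only [Finset.mem_insert, Finset.mem_singleton]; omega
  calc 3 = ({n, p - 1 - n, p - 1} : Finset ℕ).card := hcard.symm
    _ ≤ _ := Finset.card_le_card hsub

end Pool.Agent.Results.MP_79ed51_nt.ThreeSolutions
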